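import Pool.Agent.H92.SF.LUT
import Pool.Agent.H92.SF.PQV

/-!
# MP_70ba79_ag, THEOREM S: the spaces of sections are finite dimensional
-/

set_option autoImplicit false

namespace Pool.Agent.H60.SFU

open MvPolynomial
open Pool.Agent.H84.SM (dp cr dt)
open Pool.Agent.H3.SF Pool.Agent.H92.SF

section

variable {k F : Type} [Field k] [Field F] [Algebra k F]

theorem cf_add (u : Fin 3 → F) (dd : Fin 3 → Derivation k F F) (J : MvPolynomial (Fin 3) k)
    (m : ℕ) (G : F) (V W : Q2 F) (j : ℕ) (a : Fin 3 →₀ ℕ) :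
    cf u dd J m G (V + W) j a = cf u dd J m G V j a + cf u dd J m G W j a := by
  unfold cf
  rw [map_add, Polynomial.coeff_add, coeff_add]

theorem cf_smul (u : Fin 3 → F) (dd : Fin 3 → Derivation k F F) (J : MvPolynomial (Fin 3) k)
    (m : ℕ) (G : F) (r : k) (V : Q2 F) (j : ℕ) (a : Fin 3 →₀ ℕ) :
    cf u dd J m G (r • V) j a = r • cf u dd J m G V j a := by
  have hr : r • V = Polynomial.C (C (algebraMap k F r)) * V := by
    rw [Algebra.smul_def]
    rfl
  have h2 : Ps u dd J m G (r • V) = Polynomial.C (C (algebraMap k F r)) * Ps u dd J m G V := by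
    rw [hr, map_mul]
    congr 1
    simp [Ps, Psi, ev2, cc]
  unfold cf
  rw [h2, Polynomial.coeff_C_mul, coeff_C_mul, ← Algebra.smul_def]

end

theorem fin_of_maps {k V I : Type} [Field k] [AddCommGroup V] [Module k V] [Finite I]
    (W : I → Type) [∀ i, AddCommGroup (W i)] [∀ i, Module k (W i)] [∀ i, Module.Finite k (W i)]
    (L : ∀ i, V →ₗ[k] W i) (h : ∀ v w, (∀ i, L i v = L i w) → v = w) : Module.Finite k V := by
  apply Module.Finite.of_injective (LinearMap.pi L)
  intro v w hvw
  exact h v w fun i => congrFun hvw i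

theorem pf_FIN (hDAT : T_DAT) (hDEG : T_DEG) : T_FIN := by
  intro k F _ _ _ _ _ u dd δ j0 c0 J m G hBs n τ
  obtain ⟨hD, hu0, hJ0, hmG0, -⟩ := hDAT k F u dd δ j0 c0 J m G hBs
  have hdeg := fun V hV => hDEG k F u dd δ j0 c0 J m G hBs n τ V hV
  let e : ℕ → ℤ := fun j => τ + n * ((m : ℤ) + 2 * j0 - 2) - j * (2 * m + 6 * j0 - 3)
  let L : (j : ℕ) → (Fin 3 →₀ ℕ) → (E u dd J m G n τ →ₗ[k] BB k u (eu u dd) (e j)) :=
    fun j a =>
    { toFun := fun V => ⟨cf u dd J m G V.1 j a, V.2.2 j a, (hdeg V.1 V.2.1).1 j a⟩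
      map_add' := fun V W => by
        apply Subtype.ext
        exact cf_add u dd J m G V.1 W.1 j a
      map_smul' := fun r V => by
        apply Subtype.ext
        exact cf_smul u dd J m G r V.1 j a }
  haveI hfin : ∀ q : Fin (n + 1) × (Fin 3 → Fin (n + 1)),
    Module.Finite k (BB k u (eu u dd) (e q.1)) := fun q => hBs.fin _
  refine fin_of_maps (k := k) (V := E u dd J m G n τ) (I := Fin (n + 1) × (Fin 3 → Fin (n + 1)))
    (fun q => BB k u (eu u dd) (e q.1))
    (fun q => L q.1 (Finsupp.equivFunOnFinite.symm fun i => (q.2 i : ℕ))) ?_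
  intro V W hVW
  have h1 : ∀ (j : ℕ) (a : Fin 3 →₀ ℕ), cf u dd J m G V.1 j a = cf u dd J m G W.1 j a := by
    intro j a
    by_cases hs : a 0 + a 1 + a 2 + 3 * j = n
    · have hb : ∀ i, a i < n + 1 := by
        intro i
        fin_cases i
        · show a 0 < n + 1
          omega
        · show a 1 < n + 1
          omega
        · show a 2 < n + 1
          omega
      have h3 := hVW (⟨j, by omega⟩, fun i => ⟨a i, hb i⟩)
      have h4 : cf u dd J m G V.1 j (Finsupp.equivFunOnFinite.symm fun i => a i) =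
          cf u dd J m G W.1 j (Finsupp.equivFunOnFinite.symm fun i => a i) :=
        congrArg Subtype.val h3
      have h5 : (Finsupp.equivFunOnFinite.symm fun i => a i) = a := by
        ext i
        rfl
      rwa [h5] at h4
    · have h6 : ∀ X : E u dd J m G n τ, cf u dd J m G X.1 j a = 0 := by
        intro X
        by_contra hne
        exact hs ((hdeg X.1 X.2.1).2 j a hne)
      rw [h6, h6]
  have h6 : Psi m u (grd dd G) G (hes dd G) (aeval u J) V.1 =
      Psi m u (grd dd G) G (hes dd G) (aeval u J) W.1 := by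
    apply Polynomial.ext
    intro j
    apply MvPolynomial.ext
    intro a
    exact h1 j a
  have h7 := fun X : Q2 F => pf_LIN F m u (grd dd G) G (hes dd G) (aeval u J) (u 0)⁻¹
    ((m : F) * G)⁻¹ (aeval u J)⁻¹ hD (inv_mul_cancel₀ (hu0 0)) (inv_mul_cancel₀ hmG0)
    (inv_mul_cancel₀ hJ0) X
  apply Subtype.ext
  rw [← h7 V.1, ← h7 W.1, h6]

end Pool.Agent.H60.SFU
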